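import Pool.Agent.H854R3.NE.FinRed

/-! The last steps: a variety all of whose subvarieties with `E ∪ WId p (p ^ k)` are Engel is
Engel; hence minimal non-Engel varieties are Cross varieties. -/

set_option autoImplicit false

namespace Pool.Agent.H24NE

open Pool.Agent.H854R3.NE

variable {R : Type} [NonUnitalRing R]

theorem eng_mem_of_le {J : TwoSidedIdeal R} {x y : R} {k m : ℕ} (h : eng x y k ∈ J)
    (hkm : k ≤ m) : eng x y m ∈ J := by
  induction m, hkm using Nat.le_induction with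
  | base => exact h
  | succ m _ ih => exact J.sub_mem (J.mul_mem_right _ _ ih) (J.mul_mem_left _ _ ih)

/-- a quotient in which every non-zero ideal contains an iterated commutator -/
theorem exists_good_quot {x y : R} (h : ∀ k, eng x y k ≠ 0) :
    ∃ (Q : Type) (_ : NonUnitalRing Q) (φ : R →ₙ+* Q), Function.Surjective φ ∧
      (∀ k, eng (φ x) (φ y) k ≠ 0) ∧
      ∀ J : TwoSidedIdeal Q, J ≠ ⊥ → ∃ k, eng (φ x) (φ y) k ∈ J := by
  obtain ⟨I, hI, hmax⟩ := exists_max_ideal (fun I : TwoSidedIdeal R => ∀ k, eng x y k ∉ I)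
    (by intro k; rw [TwoSidedIdeal.mem_bot]; exact h k)
    (by
      intro c _ _ hP U hU k hk
      obtain ⟨I, hI, h⟩ := (hU _).1 hk
      exact hP I hI k h)
  obtain ⟨Q, inst, φ, hφ, hker⟩ := exists_quot I
  refine ⟨Q, inst, φ, hφ, ?_, ?_⟩
  · intro k hk
    rw [← eng_map, hker] at hk
    exact hI k hk
  · intro J hJ
    by_contra hcon
    push Not at hcon
    let J' : TwoSidedIdeal R := TwoSidedIdeal.mk' {x | φ x ∈ J}
      (by change φ 0 ∈ J; rw [map_zero]; exact J.zero_mem)
      (by intro x y hx hy; change φ (x + y) ∈ J; rw [map_add]; exact J.add_mem hx hy)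
      (by intro x hx; change φ (-x) ∈ J; rw [map_neg]; exact J.neg_mem hx)
      (by intro x y hy; change φ (x * y) ∈ J; rw [map_mul]; exact J.mul_mem_left _ _ hy)
      (by intro x y hx; change φ (x * y) ∈ J; rw [map_mul]; exact J.mul_mem_right _ _ hx)
    have hJ' : ∀ x, x ∈ J' ↔ φ x ∈ J := fun x => TwoSidedIdeal.mem_mk' _ _ _ _ _ _ x
    have h1 : J' = I := by
      apply hmax J'
      · intro k
        rw [hJ', eng_map]
        exact hcon k
      · intro x hx
        rw [hJ', (hker x).2 hx]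
        exact J.zero_mem
    obtain ⟨y, hy, hy0⟩ := exists_mem_ne hJ
    obtain ⟨x, rfl⟩ := hφ y
    apply hy0
    rw [hker, ← h1, hJ']
    exact hy

/-- a ring generated by `a`, `y` in which `a a = 0` and `a r a = 0` for all `r` -/
theorem D2_of_gen_sq {a y : R} (hg : GenBy a y) (haa : a * a = 0)
    (har : ∀ r : R, a * r * a = 0) : D2 R := by
  have ha : a ∈ TwoSidedIdeal.span ({a} : Set R) := TwoSidedIdeal.subset_span rfl
  set I := TwoSidedIdeal.span ({a} : Set R) with hI
  have h1 : ∀ u : R, u * y - y * u ∈ I := by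
    intro u
    refine hg.induction (P := fun u => u * y - y * u ∈ I) ?_ ?_ ?_ ?_ ?_ ?_ u
    · exact I.sub_mem (I.mul_mem_right _ _ ha) (I.mul_mem_left _ _ ha)
    · rw [sub_self]; exact I.zero_mem
    · rw [zero_mul, mul_zero, sub_self]; exact I.zero_mem
    · intro u v hu hv
      have : (u + v) * y - y * (u + v) = (u * y - y * u) + (v * y - y * v) := by noncomm_ring
      rw [this]; exact I.add_mem hu hv
    · intro u hu
      have : -u * y - y * -u = - (u * y - y * u) := by noncomm_ring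
      rw [this]; exact I.neg_mem hu
    · intro u v hu hv
      have : u * v * y - y * (u * v) = u * (v * y - y * v) + (u * y - y * u) * v := by
        noncomm_ring
      rw [this]; exact I.add_mem (I.mul_mem_left _ _ hv) (I.mul_mem_right _ _ hu)
  have h2 : ∀ v u : R, u * v - v * u ∈ I := by
    intro v
    refine hg.induction (P := fun v => ∀ u, u * v - v * u ∈ I) ?_ ?_ ?_ ?_ ?_ ?_ v
    · intro u
      exact I.sub_mem (I.mul_mem_left _ _ ha) (I.mul_mem_right _ _ ha)
    · exact h1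
    · intro u; rw [zero_mul, mul_zero, sub_self]; exact I.zero_mem
    · intro v w hv hw u
      have : u * (v + w) - (v + w) * u = (u * v - v * u) + (u * w - w * u) := by noncomm_ring
      rw [this]; exact I.add_mem (hv u) (hw u)
    · intro v hv u
      have : u * -v - -v * u = - (u * v - v * u) := by noncomm_ring
      rw [this]; exact I.neg_mem (hv u)
    · intro v w hv hw u
      have : u * (v * w) - (v * w) * u = (u * v - v * u) * w + v * (u * w - w * u) := by
        noncomm_ring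
      rw [this]; exact I.add_mem (I.mul_mem_right _ _ (hv u)) (I.mul_mem_left _ _ (hw u))
  have hz : ∀ m ∈ I, ∀ n ∈ I, m * n = 0 := by
    intro m hm n hn
    refine span_mul_zero (G := {a}) ?_ ?_ hm hn
    · intro u hu v hv
      rw [Set.mem_singleton_iff] at hu hv
      rw [hu, hv, haa]
    · intro u hu v hv c
      rw [Set.mem_singleton_iff] at hu hv
      rw [hu, hv, har]
  refine ⟨?_, ?_⟩
  · rintro _ ⟨u, v, rfl⟩ _ ⟨u', v', rfl⟩
    exact hz _ (h2 v u) _ (h2 v' u')
  · rintro _ ⟨u, v, rfl⟩ _ ⟨u', v', rfl⟩ c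
    exact hz _ (I.mul_mem_right _ _ (h2 v u)) _ (h2 v' u')

theorem eng_of_sub2 {E : Set (RTerm × RTerm)} {n : ℕ} (h : D2Engel E n) (hR : Models E R)
    {a y : R} (h1 : D2 (sub2 a y)) : eng a y n = 0 := by
  have h2 := h.2 (sub2 a y) (hR.subring _) h1 (sx a y) (sy a y)
  have h3 := eng_map (NonUnitalSubringClass.subtype (sub2 a y)) (sx a y) (sy a y) n
  rw [h2, map_zero] at h3
  exact h3.symm

theorem semiprime_aux {E : Set (RTerm × RTerm)} {n : ℕ} (hD : D2Engel E n) (hR : Models E R)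
    {x y : R} (hne : ∀ k, eng x y k ≠ 0)
    (hall : ∀ J : TwoSidedIdeal R, J ≠ ⊥ → ∃ k, eng x y k ∈ J)
    {a : R} (haa : a * a = 0) (ha : ∀ r, a * r * a = 0) : a = 0 := by
  by_contra ha0
  have hmem : a ∈ TwoSidedIdeal.span ({a} : Set R) := TwoSidedIdeal.subset_span rfl
  obtain ⟨k, hk⟩ := hall _ (ne_bot_of_mem hmem ha0)
  have hz : ∀ m ∈ TwoSidedIdeal.span ({a} : Set R), ∀ n ∈ TwoSidedIdeal.span ({a} : Set R),
      m * n = 0 := by
    intro m hm n hn
    refine span_mul_zero (G := {a}) ?_ ?_ hm hn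
    · intro u hu v hv
      rw [Set.mem_singleton_iff] at hu hv
      rw [hu, hv, haa]
    · intro u hu v hv c
      rw [Set.mem_singleton_iff] at hu hv
      rw [hu, hv, ha]
  have h1 : D2 (sub2 (eng x y k) y) := D2_of_gen_sq (genBy_sub2 (eng x y k) y)
    (Subtype.ext (hz _ hk _ hk))
    (fun r => Subtype.ext (hz _ (TwoSidedIdeal.mul_mem_right _ _ _ hk) _ hk))
  have h2 := eng_of_sub2 hD hR h1
  rw [← eng_add] at h2
  exact hne _ h2

theorem semiprime_of_good {E : Set (RTerm × RTerm)} {n : ℕ} (hD : D2Engel E n)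
    (hR : Models E R) {x y : R} (hne : ∀ k, eng x y k ≠ 0)
    (hall : ∀ J : TwoSidedIdeal R, J ≠ ⊥ → ∃ k, eng x y k ∈ J)
    {a : R} (ha : ∀ r, a * r * a = 0) : a = 0 := by
  apply semiprime_aux hD hR hne hall _ ha
  apply semiprime_aux hD hR hne hall
  · rw [← mul_assoc, ha a, zero_mul]
  · intro r
    have : a * a * r * (a * a) = a * (a * r * a) * a := by noncomm_ring
    rw [this, ha r, mul_zero, zero_mul]

theorem prime_of_good {E : Set (RTerm × RTerm)} {n : ℕ} (hD : D2Engel E n)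
    (hR : Models E R) {x y : R} (hne : ∀ k, eng x y k ≠ 0)
    (hall : ∀ J : TwoSidedIdeal R, J ≠ ⊥ → ∃ k, eng x y k ∈ J) : PrimeR R := by
  intro a b hab
  by_contra hcon
  push Not at hcon
  obtain ⟨ha, hb⟩ := hcon
  let K1 : TwoSidedIdeal R := TwoSidedIdeal.mk' {z | ∀ g, z * g * b = 0}
    (by intro g; rw [zero_mul, zero_mul])
    (by intro x y hx hy g; rw [add_mul, add_mul, hx g, hy g, add_zero])
    (by intro x hx g; rw [neg_mul, neg_mul, hx g, neg_zero])
    (by intro x y hy g; rw [mul_assoc x y g, mul_assoc x, hy g, mul_zero])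
    (by intro x y hx g; rw [mul_assoc x y g]; exact hx (y * g))
  have hK1 : ∀ z, z ∈ K1 ↔ ∀ g, z * g * b = 0 := fun z => TwoSidedIdeal.mem_mk' _ _ _ _ _ _ z
  obtain ⟨i, hi⟩ := hall K1 (ne_bot_of_mem ((hK1 a).2 hab) ha)
  let K2 : TwoSidedIdeal R := TwoSidedIdeal.mk' {z | ∀ g, eng x y i * g * z = 0}
    (by intro g; rw [mul_zero])
    (by intro x y hx hy g; rw [mul_add, hx g, hy g, add_zero])
    (by intro x hx g; rw [mul_neg, hx g, neg_zero])
    (by intro x y hy g; rw [← mul_assoc, mul_assoc _ g x]; exact hy (g * x))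
    (by intro x y hx g; rw [← mul_assoc, hx g, zero_mul])
  have hK2 : ∀ z, z ∈ K2 ↔ ∀ g, eng x y i * g * z = 0 :=
    fun z => TwoSidedIdeal.mem_mk' _ _ _ _ _ _ z
  obtain ⟨j, hj⟩ := hall K2 (ne_bot_of_mem ((hK2 b).2 ((hK1 _).1 hi)) hb)
  -- `eng x y i * g * eng x y j = 0`; pass to a common index
  let K3 : TwoSidedIdeal R := TwoSidedIdeal.mk' {z | ∀ g, z * g * eng x y j = 0}
    (by intro g; rw [zero_mul, zero_mul])
    (by intro x y hx hy g; rw [add_mul, add_mul, hx g, hy g, add_zero])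
    (by intro x hx g; rw [neg_mul, neg_mul, hx g, neg_zero])
    (by intro x y hy g; rw [mul_assoc x y g, mul_assoc x, hy g, mul_zero])
    (by intro x y hx g; rw [mul_assoc x y g]; exact hx (y * g))
  have hK3 : ∀ z, z ∈ K3 ↔ ∀ g, z * g * eng x y j = 0 :=
    fun z => TwoSidedIdeal.mem_mk' _ _ _ _ _ _ z
  have h3 : eng x y (i + j) ∈ K3 := eng_mem_of_le ((hK3 _).2 ((hK2 _).1 hj)) (Nat.le_add_right _ _)
  let K4 : TwoSidedIdeal R := TwoSidedIdeal.mk' {z | ∀ g, eng x y (i + j) * g * z = 0}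
    (by intro g; rw [mul_zero])
    (by intro x y hx hy g; rw [mul_add, hx g, hy g, add_zero])
    (by intro x hx g; rw [mul_neg, hx g, neg_zero])
    (by intro x y hy g; rw [← mul_assoc, mul_assoc _ g x]; exact hy (g * x))
    (by intro x y hx g; rw [← mul_assoc, hx g, zero_mul])
  have hK4 : ∀ z, z ∈ K4 ↔ ∀ g, eng x y (i + j) * g * z = 0 :=
    fun z => TwoSidedIdeal.mem_mk' _ _ _ _ _ _ z
  have h4 : eng x y (i + j) ∈ K4 := eng_mem_of_le ((hK4 _).2 ((hK3 _).1 h3)) (Nat.le_add_left _ _)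
  exact hne _ (semiprime_of_good hD hR hne hall ((hK4 _).1 h4))

/-- Vandermonde -/
theorem vdm {M : Type} [AddCommGroup M] (htf : ∀ (m : ℤ) (u : M), m ≠ 0 → m • u = 0 → u = 0)
    (d : ℕ) (c : Fin d → M)
    (h : ∀ k : Fin d, ∑ i : Fin d, (((k : ℕ) : ℤ) ^ (i : ℕ)) • c i = 0) (i : Fin d) :
    c i = 0 := by
  set V : Matrix (Fin d) (Fin d) ℤ := Matrix.vandermonde (fun k : Fin d => ((k : ℕ) : ℤ)) with hV
  have hdet : V.det ≠ 0 := by
    rw [hV, Matrix.det_vandermonde_ne_zero_iff]
    intro a b hab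
    exact Fin.ext (Int.ofNat_inj.1 hab)
  apply htf _ _ hdet
  have h1 : ∀ j, (V.adjugate * V) i j = if i = j then V.det else 0 := by
    intro j
    rw [Matrix.adjugate_mul, Matrix.smul_apply, Matrix.one_apply, smul_eq_mul]
    split_ifs <;> simp
  have h2 : V.det • c i = ∑ j, (V.adjugate * V) i j • c j := by
    rw [Finset.sum_eq_single i]
    · rw [h1, if_pos rfl]
    · intro j _ hj
      rw [h1, if_neg (Ne.symm hj), zero_smul]
    · intro hi; exact absurd (Finset.mem_univ i) hi
  have h3 : ∑ j, (V.adjugate * V) i j • c j = ∑ k, V.adjugate i k • ∑ j, V k j • c j := by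
    simp only [Matrix.mul_apply, Finset.sum_smul, Finset.smul_sum, smul_smul]
    rw [Finset.sum_comm]
  rw [h2, h3]
  apply Finset.sum_eq_zero
  intro k _
  have h4 : ∑ j, V k j • c j = 0 := h k
  rw [h4, smul_zero]

open Polynomial in
/-- a polynomial over a torsion-free ring which vanishes at all natural numbers is zero -/
theorem poly_zero {U : Type} [Ring U] (htf : ∀ (m : ℤ) (u : U), m ≠ 0 → m • u = 0 → u = 0)
    (ev : ℕ → U[X] →+* U) (hC : ∀ k u, ev k (C u) = u) (hX : ∀ k, ev k X = (k : U))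
    (f : U[X]) (h : ∀ k, ev k f = 0) : f = 0 := by
  have h1 : ∀ k, ∑ i ∈ Finset.range (f.natDegree + 1), (((k : ℕ) : ℤ) ^ i) • f.coeff i = 0 := by
    intro k
    rw [← h k]
    conv_rhs => rw [f.as_sum_range_C_mul_X_pow]
    rw [map_sum]
    apply Finset.sum_congr rfl
    intro i _
    rw [map_mul, map_pow, hC, hX, zsmul_eq_mul, Int.cast_pow, Int.cast_natCast]
    exact ((Nat.cast_commute k (f.coeff i)).pow_left i).eq
  have h2 := vdm htf (f.natDegree + 1) (fun i => f.coeff i) (by
    intro k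
    rw [← h1 (k : ℕ), Finset.sum_range])
  ext i
  rw [coeff_zero]
  by_cases hi : i < f.natDegree + 1
  · exact h2 ⟨i, hi⟩
  · exact coeff_eq_zero_of_natDegree_lt (by omega)

section tf

open Polynomial

variable {S : Type} [NonUnitalRing S]

/-- the double centralizer of `y` -/
def dcen (y : S) : NonUnitalSubring S where
  carrier := {s | ∀ t, t * y = y * t → s * t = t * s}
  zero_mem' := by intro t _; rw [zero_mul, mul_zero]
  add_mem' := by
    intro a b ha hb t ht
    rw [add_mul, mul_add, ha t ht, hb t ht]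
  neg_mem' := by
    intro a ha t ht
    rw [neg_mul, mul_neg, ha t ht]
  mul_mem' := by
    intro a b ha hb t ht
    rw [mul_assoc, hb t ht, ← mul_assoc, ha t ht, mul_assoc]

theorem self_mem_dcen (y : S) : y ∈ dcen y := fun _ ht => ht.symm

theorem dcen_comm {y a b : S} (ha : a ∈ dcen y) (hb : b ∈ dcen y) : a * b = b * a :=
  ha b (hb y rfl)

/-- the polynomials with coefficients in the image of `S` whose constant term lies in the image
of the double centralizer of `y` -/
noncomputable def PolyS {U : Type} [Ring U] (ι : S →ₙ+* U) (y : S) : NonUnitalSubring U[X] where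
  carrier := {f | (∀ i, f.coeff i ∈ ι.range) ∧ f.coeff 0 ∈ (dcen y).map ι}
  zero_mem' := ⟨fun i => by rw [coeff_zero]; exact zero_mem _, by
    rw [coeff_zero]; exact zero_mem _⟩
  add_mem' := fun ha hb => ⟨fun i => by rw [coeff_add]; exact add_mem (ha.1 i) (hb.1 i), by
    rw [coeff_add]; exact add_mem ha.2 hb.2⟩
  neg_mem' := fun ha => ⟨fun i => by rw [coeff_neg]; exact neg_mem (ha.1 i), by
    rw [coeff_neg]; exact neg_mem ha.2⟩
  mul_mem' := fun ha hb => ⟨fun i => by
      rw [coeff_mul]; exact sum_mem (fun p _ => mul_mem (ha.1 _) (hb.1 _)), by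
    rw [mul_coeff_zero]; exact mul_mem ha.2 hb.2⟩

theorem models_PolyS {U : Type} [Ring U] (ι : S →ₙ+* U)
    (hU : ∀ (m : ℤ) (u : U), m ≠ 0 → m • u = 0 → u = 0)
    {E : Set (RTerm × RTerm)} (hS : Models E S) (y : S) : Models E (PolyS ι y) := by
  let ev : ℕ → U[X] →+* U := fun k =>
    eval₂RingHom' (RingHom.id _) (k : U) (fun a => Nat.commute_cast _ k)
  have hC : ∀ k u, ev k (C u) = u := by
    intro k u
    exact eval₂_C _ _
  have hX : ∀ k, ev k X = (k : U) := by
    intro k
    exact eval₂_X _ _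
  intro e he v
  apply Subtype.ext
  rw [← sub_eq_zero]
  apply poly_zero hU ev hC hX
  intro k
  rw [map_sub, sub_eq_zero]
  let F : PolyS ι y →ₙ+* U :=
    ((ev k : U[X] →+* U) : U[X] →ₙ+* U).comp (NonUnitalSubringClass.subtype (PolyS ι y))
  have hF : ∀ f : PolyS ι y, ∃ w : S, ι w = F f := by
    intro f
    change F f ∈ ι.range
    have h1 : F f = ∑ i ∈ Finset.range ((f : U[X]).natDegree + 1),
        (((k : ℕ) : ℤ) ^ i) • (f : U[X]).coeff i := by
      change ev k (f : U[X]) = _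
      conv_lhs => rw [(f : U[X]).as_sum_range_C_mul_X_pow]
      rw [map_sum]
      apply Finset.sum_congr rfl
      intro i _
      rw [map_mul, map_pow, hC, hX, zsmul_eq_mul, Int.cast_pow, Int.cast_natCast]
      exact (((Nat.cast_commute k (coeff (f : U[X]) i)).pow_left i).eq).symm
    rw [h1]
    exact sum_mem (fun i _ => zsmul_mem (f.2.1 i) _)
  choose w hw using fun i => hF (v i)
  have h1 : ∀ t : RTerm, F (t.val v) = ι (t.val w) := by
    intro t
    rw [val_map F v t, val_map ι w t, funext hw]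
  change F (e.1.val v) = F (e.2.val v)
  rw [h1, h1, hS e he w]

theorem eng_zero_of_tf_aux {U : Type} [Ring U] (ι : S →ₙ+* U) (hι : Function.Injective ι)
    (hU : ∀ (m : ℤ) (u : U), m ≠ 0 → m • u = 0 → u = 0)
    {E : Set (RTerm × RTerm)} {n : ℕ} (hD : D2Engel E n) (hS : Models E S) (x y : S) :
    eng x y n = 0 := by
  have hP := models_PolyS ι hU hS y
  -- the ideal of the polynomials without terms of degree `0` and `1`
  let I : TwoSidedIdeal (PolyS ι y) := TwoSidedIdeal.mk'
    {f | (f : U[X]).coeff 0 = 0 ∧ (f : U[X]).coeff 1 = 0}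
    ⟨coeff_zero 0, coeff_zero 1⟩
    (by
      rintro f g ⟨hf0, hf1⟩ ⟨hg0, hg1⟩
      refine ⟨?_, ?_⟩
      · change ((f : U[X]) + (g : U[X])).coeff 0 = 0
        rw [coeff_add, hf0, hg0, add_zero]
      · change ((f : U[X]) + (g : U[X])).coeff 1 = 0
        rw [coeff_add, hf1, hg1, add_zero])
    (by
      rintro f ⟨hf0, hf1⟩
      refine ⟨?_, ?_⟩
      · change (-(f : U[X])).coeff 0 = 0
        rw [coeff_neg, hf0, neg_zero]
      · change (-(f : U[X])).coeff 1 = 0
        rw [coeff_neg, hf1, neg_zero])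
    (by
      rintro f g ⟨hg0, hg1⟩
      refine ⟨?_, ?_⟩
      · change ((f : U[X]) * (g : U[X])).coeff 0 = 0
        rw [mul_coeff_zero, hg0, mul_zero]
      · change ((f : U[X]) * (g : U[X])).coeff 1 = 0
        rw [mul_coeff_one, hg0, hg1, mul_zero, mul_zero, add_zero])
    (by
      rintro f g ⟨hf0, hf1⟩
      refine ⟨?_, ?_⟩
      · change ((f : U[X]) * (g : U[X])).coeff 0 = 0
        rw [mul_coeff_zero, hf0, zero_mul]
      · change ((f : U[X]) * (g : U[X])).coeff 1 = 0
        rw [mul_coeff_one, hf0, hf1, zero_mul, zero_mul, add_zero])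
  have hI : ∀ f : PolyS ι y, f ∈ I ↔ (f : U[X]).coeff 0 = 0 ∧ (f : U[X]).coeff 1 = 0 :=
    fun f => TwoSidedIdeal.mem_mk' _ _ _ _ _ _ f
  obtain ⟨Q, inst, φ, hφ, hker⟩ := exists_quot I
  have hQ : Models E Q := hP.of_surjective φ hφ
  -- commutators have no constant term
  have hc0 : ∀ c ∈ Comm Q, ∃ f : PolyS ι y, φ f = c ∧ (f : U[X]).coeff 0 = 0 := by
    rintro _ ⟨f, g, rfl⟩
    obtain ⟨f, rfl⟩ := hφ f
    obtain ⟨g, rfl⟩ := hφ g
    refine ⟨f * g - g * f, by rw [map_sub, map_mul, map_mul], ?_⟩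
    change ((f : U[X]) * (g : U[X]) - (g : U[X]) * (f : U[X])).coeff 0 = 0
    rw [coeff_sub, mul_coeff_zero, mul_coeff_zero]
    obtain ⟨a, ha, ha'⟩ := f.2.2
    obtain ⟨b, hb, hb'⟩ := g.2.2
    rw [← ha', ← hb', ← map_mul, ← map_mul, dcen_comm ha hb, sub_self]
  have hDQ : D2 Q := by
    have key : ∀ f g : PolyS ι y, (f : U[X]).coeff 0 = 0 →
        (g : U[X]).coeff 0 = 0 → φ f * φ g = 0 := by
      intro f g hf hg
      rw [← map_mul, hker, hI]
      refine ⟨?_, ?_⟩
      · change ((f : U[X]) * (g : U[X])).coeff 0 = 0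
        rw [mul_coeff_zero, hf, zero_mul]
      · change ((f : U[X]) * (g : U[X])).coeff 1 = 0
        rw [mul_coeff_one, hf, hg, zero_mul, mul_zero, add_zero]
    refine ⟨?_, ?_⟩
    · intro a ha b hb
      obtain ⟨f, rfl, hf⟩ := hc0 a ha
      obtain ⟨g, rfl, hg⟩ := hc0 b hb
      exact key f g hf hg
    · intro a ha b hb c
      obtain ⟨f, rfl, hf⟩ := hc0 a ha
      obtain ⟨g, rfl, hg⟩ := hc0 b hb
      obtain ⟨h, rfl⟩ := hφ c
      rw [← map_mul]
      apply key _ _ _ hg
      change ((f : U[X]) * (h : U[X])).coeff 0 = 0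
      rw [mul_coeff_zero, hf, zero_mul]
  -- the elements `x X` and `y`
  have hxm : C (ι x) * X ∈ PolyS ι y := by
    refine ⟨?_, ?_⟩
    · intro i
      rw [coeff_C_mul, coeff_X]
      split_ifs
      · rw [mul_one]; exact ⟨x, rfl⟩
      · rw [mul_zero]; exact zero_mem _
    · rw [coeff_C_mul, coeff_X_zero, mul_zero]; exact zero_mem _
  have hym : C (ι y) ∈ PolyS ι y := by
    refine ⟨?_, ?_⟩
    · intro i
      rw [coeff_C]
      split_ifs
      · exact ⟨y, rfl⟩
      · exact zero_mem _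
    · rw [coeff_C_zero]; exact ⟨y, self_mem_dcen y, rfl⟩
  have h1 := hD.2 Q hQ hDQ (φ ⟨_, hxm⟩) (φ ⟨_, hym⟩)
  rw [← eng_map, hker, hI] at h1
  have h2 : ∀ k, ((eng (⟨_, hxm⟩ : PolyS ι y) ⟨_, hym⟩ k : PolyS ι y) : U[X]) =
      C (ι (eng x y k)) * X := by
    intro k
    induction k with
    | zero => rfl
    | succ k ih =>
      change ((eng (⟨_, hxm⟩ : PolyS ι y) ⟨_, hym⟩ k : PolyS ι y) : U[X]) *
        C (ι y) - C (ι y) * ((eng (⟨_, hxm⟩ : PolyS ι y) ⟨_, hym⟩ k : PolyS ι y) : U[X]) =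
        C (ι (eng x y k * y - y * eng x y k)) * X
      rw [ih, map_sub, map_mul, map_mul, C_sub, C_mul, C_mul,
        sub_mul, mul_assoc, X_mul, mul_assoc, mul_assoc]
  have h3 := h1.2
  rw [h2, coeff_C_mul, coeff_X_one, mul_one] at h3
  exact hι (h3.trans (map_zero ι).symm)

/-- the embedding into the unitization -/
theorem exists_unitization (S : Type) [NonUnitalRing S]
    (htf : ∀ (m : ℤ) (u : S), m ≠ 0 → m • u = 0 → u = 0) :
    ∃ (U : Type) (_ : Ring U) (ι : S →ₙ+* U), Function.Injective ι ∧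
      ∀ (m : ℤ) (u : U), m ≠ 0 → m • u = 0 → u = 0 := by
  refine ⟨Unitization ℤ S, inferInstance,
    { toFun := fun s => (s : Unitization ℤ S)
      map_mul' := fun a b => Unitization.inr_mul ℤ a b
      map_zero' := Unitization.inr_zero ℤ
      map_add' := fun a b => Unitization.inr_add ℤ a b }, ?_, ?_⟩
  · intro a b h
    exact Unitization.inr_injective (R := ℤ) h
  · intro m u hm hu
    have h1 : m • u.fst = 0 := congrArg (fun z : Unitization ℤ S => z.fst) hu
    have h2 : m • u.snd = 0 := congrArg (fun z : Unitization ℤ S => z.snd) hu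
    have h3 : u.fst = 0 := by
      rcases mul_eq_zero.1 h1 with h | h
      · exact absurd h hm
      · exact h
    have h4 : u.snd = 0 := htf m _ hm h2
    exact Unitization.ext h3 h4

theorem eng_zero_of_tf {E : Set (RTerm × RTerm)} {n : ℕ} (hD : D2Engel E n) (hS : Models E S)
    (htf : ∀ (m : ℤ) (u : S), m ≠ 0 → m • u = 0 → u = 0) (x y : S) : eng x y n = 0 := by
  obtain ⟨U, instU, ι, hι, hU⟩ := exists_unitization S htf
  exact eng_zero_of_tf_aux ι hι hU hD hS x y

end tf

/-- A variety is Engel as soon as its intersections with the varieties `WId p (p ^ k)` are. -/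
theorem engel_of_W {E : Set (RTerm × RTerm)}
    (hW : ∀ p k : ℕ, p.Prime → 1 ≤ k → IsEngel (E ∪ WId p (p ^ k))) : IsEngel E := by
  obtain ⟨n, hD⟩ := exists_D2Engel hW
  by_contra hE
  obtain ⟨A, instA, x₀, y₀, hA, hne₀⟩ := exists_of_not_engel hE
  obtain ⟨S, instS, φ, hφ, hne, hall⟩ := exists_good_quot hne₀
  have hS : Models E S := hA.of_surjective φ hφ
  have hP : PrimeR S := prime_of_good hD hS hne hall
  have hdom : ∀ a b : S, a * b = 0 → a = 0 ∨ b = 0 := fun a b h => domain_of_prime hD hS hP h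
  by_cases htor : ∃ p : ℕ, p.Prime ∧ ∃ c : S, c ≠ 0 ∧ p • c = 0
  · obtain ⟨p, hp, c, hc, hpc⟩ := htor
    have hpS : ∀ z : S, p • z = 0 := by
      intro z
      have : (p • z) * c = 0 := by rw [smul_mul_assoc, ← mul_smul_comm, hpc, mul_zero]
      rcases hdom _ _ this with h | h
      · exact h
      · exact absurd h hc
    have : Fact p.Prime := ⟨hp⟩
    have h1 := prime_comm hD (hW p 1 hp le_rfl) hS hpS hP (φ x₀) (φ y₀)
    apply hne 1
    change φ x₀ * φ y₀ - φ y₀ * φ x₀ = 0
    rw [h1, sub_self]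
  · push Not at htor
    apply hne n
    have htn : ∀ (m : ℕ) (u : S), m ≠ 0 → m • u = 0 → u = 0 := by
      intro m
      induction m using induction_on_primes with
      | zero => intro u h; exact absurd rfl h
      | one => intro u _ h; rwa [one_smul] at h
      | prime_mul p a hp ih =>
        intro u hm hu
        apply ih u (fun h => hm (by rw [h, mul_zero]))
        by_contra hcon
        apply htor p hp _ hcon
        rwa [smul_smul]
    apply eng_zero_of_tf hD hS
    intro m u hm hu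
    apply htn m.natAbs u (Int.natAbs_ne_zero.2 hm)
    rcases Int.natAbs_eq m with h | h
    · rw [h, natCast_zsmul] at hu; exact hu
    · rw [h, neg_smul, natCast_zsmul, neg_eq_zero] at hu; exact hu

/-- Every minimal non-Engel variety of associative rings is a Cross variety. -/
theorem minimal_cross (E : Set (RTerm × RTerm)) (hE : MinimalNonEngel E) : IsCross E := by
  have h1 : ∃ p k : ℕ, p.Prime ∧ 1 ≤ k ∧ ¬ IsEngel (E ∪ WId p (p ^ k)) := by
    by_contra hcon
    push Not at hcon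
    exact hE.1 (engel_of_W hcon)
  obtain ⟨p, k, hp, hk, hne⟩ := h1
  have : Fact p.Prime := ⟨hp⟩
  apply cross_of_sub (p := p) (k := k) hk
  have h2 : SubvarietyOf (E ∪ WId p (p ^ k)) E := fun R _ hR e he => hR e (Or.inl he)
  have h3 : SubvarietyOf E (E ∪ WId p (p ^ k)) := by
    by_contra hcon
    exact hne (hE.2 _ h2 hcon)
  intro R _ hR e he
  exact h3 R hR e (Or.inr he)

end Pool.Agent.H24NE

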